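import Pool.Agent.Helper18.ED.St

/-! # MP_27c4f6_nt, module CT: continuity of the entropy -/

namespace Pool.Agent.Helper18.ED

open Finset

theorem pf_Cont : StCont := by
  intro S T ε hε
  have hc : UniformContinuousOn Real.negMulLog (Set.Icc (0 : ℝ) 1) :=
    isCompact_Icc.uniformContinuousOn_of_continuous Real.continuous_negMulLog.continuousOn
  have hpos : 0 < ε / ((T.card : ℝ) + 1) := by positivity
  obtain ⟨δ, hδ, h⟩ := Metric.uniformContinuousOn_iff.1 hc _ hpos
  refine ⟨δ / 2, by positivity, fun p q hp hq hpq => ?_⟩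
  rw [← Finset.sum_sub_distrib]
  have h1 : ∀ s ∈ T, |Real.negMulLog (p s) - Real.negMulLog (q s)| ≤ ε / ((T.card : ℝ) + 1) := by
    intro s hs
    have h2 : |p s - q s| ≤ δ / 2 :=
      le_trans (Finset.single_le_sum (f := fun s => |p s - q s|) (fun _ _ => abs_nonneg _) hs) hpq
    have h3 := h (p s) (Set.mem_Icc.2 (hp s hs)) (q s) (Set.mem_Icc.2 (hq s hs))
      (by rw [Real.dist_eq]; linarith)
    rw [Real.dist_eq] at h3
    exact h3.le
  calc |∑ s ∈ T, (Real.negMulLog (p s) - Real.negMulLog (q s))|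
      ≤ ∑ s ∈ T, |Real.negMulLog (p s) - Real.negMulLog (q s)| := Finset.abs_sum_le_sum_abs _ _
    _ ≤ ∑ _s ∈ T, ε / ((T.card : ℝ) + 1) := Finset.sum_le_sum h1
    _ = (T.card : ℝ) * (ε / ((T.card : ℝ) + 1)) := by rw [Finset.sum_const, nsmul_eq_mul]
    _ ≤ ε := by
      rw [← mul_div_assoc, div_le_iff₀ (by positivity)]
      nlinarith

end Pool.Agent.Helper18.ED
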